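import Mathlib

/-!
Zero-sum bipartite Ramsey numbers of the even cycles `C_4, ..., C_{2m}` over `Z_2^d`.

Upper bound: for each character of `Z_2^d` take the signed adjacency matrix of `K_{N,N}`. The sum
over all characters of the trace of its `2k`-th power counts the zero-sum closed walks of length
`2k`. If there is no zero-sum `C_{2k}`, such a walk repeats a vertex, and log-convexity of the
even moments bounds the number of those by `N` times the count for length `2k - 2`.
Lower bound: the colouring `(x, y) ↦ (x y, x y^2, ..., x y^{m-1})` over the field with `2^k`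
elements, `k = ⌊d / (m - 1)⌋`.
-/

set_option autoImplicit false

namespace Pool.Agent.Results.MP_4ec1df_co.EvenCycles

open Finset

section bridge

variable {V Γ : Type*} [AddCommGroup Γ] {n : ℕ}

theorem cycleGraph_edge_inj : Function.Injective (fun t : Fin (n + 3) => s(t, t + 1)) := by
  intro a b h
  simp only [Sym2.eq_iff] at h
  rcases h with ⟨h, _⟩ | ⟨h1, h2⟩
  · exact h
  · exfalso
    rw [h1] at h2
    have h3 : (1 : Fin (n + 3)) + 1 = 0 := by
      have : b + (1 + 1) = b + 0 := by rw [← add_assoc, add_zero]; exact h2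
      exact add_left_cancel this
    have h4 := congrArg Fin.val h3
    simp [Fin.val_add] at h4
    rw [Nat.mod_eq_of_lt (by omega)] at h4
    omega

theorem cycleGraph_adj_succ (t : Fin (n + 3)) : (SimpleGraph.cycleGraph (n + 3)).Adj t (t + 1) := by
  rw [SimpleGraph.cycleGraph_adj]
  right; simp

theorem bridge_mp (G : SimpleGraph V) (c : Sym2 V → Γ)
    (h : ∃ H : G.Subgraph, Nonempty (H.coe ≃g SimpleGraph.cycleGraph (n + 3)) ∧
      ∑ᶠ e ∈ H.edgeSet, c e = 0) :
    ∃ w : Fin (n + 3) → V, Function.Injective w ∧ (∀ t, G.Adj (w t) (w (t + 1))) ∧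
      ∑ t, c s(w t, w (t + 1)) = 0 := by
  obtain ⟨H, ⟨φ⟩, hsum⟩ := h
  refine ⟨fun t => (φ.symm t : V), ?_, ?_, ?_⟩
  · intro a b hab
    have := Subtype.ext hab
    exact φ.symm.injective this
  · intro t
    have h1 : H.coe.Adj (φ.symm t) (φ.symm (t + 1)) :=
      φ.symm.map_adj_iff.mpr (cycleGraph_adj_succ t)
    exact H.adj_sub h1
  · rw [← hsum]
    have hset : H.edgeSet = Set.range (fun t : Fin (n + 3) => s((φ.symm t : V), (φ.symm (t + 1) : V))) := by
      ext e
      induction e with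
      | _ u v =>
        rw [SimpleGraph.Subgraph.mem_edgeSet]
        simp only [Set.mem_range, Sym2.eq_iff]
        constructor
        · intro huv
          have hu : u ∈ H.verts := H.edge_vert huv
          have hv : v ∈ H.verts := H.edge_vert huv.symm
          have h1 : (SimpleGraph.cycleGraph (n + 3)).Adj (φ ⟨u, hu⟩) (φ ⟨v, hv⟩) :=
            φ.map_adj_iff.mpr huv
          rw [SimpleGraph.cycleGraph_adj] at h1
          rcases h1 with h1 | h1
          · refine ⟨φ ⟨v, hv⟩, Or.inr ⟨by simp, ?_⟩⟩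
            rw [← h1]; simp
          · refine ⟨φ ⟨u, hu⟩, Or.inl ⟨by simp, ?_⟩⟩
            rw [← h1]; simp
        · rintro ⟨t, ⟨h1, h2⟩ | ⟨h1, h2⟩⟩
          · rw [← h1, ← h2]
            exact φ.symm.map_adj_iff.mpr (cycleGraph_adj_succ t)
          · rw [← h1, ← h2]
            exact (φ.symm.map_adj_iff.mpr (cycleGraph_adj_succ t) : H.coe.Adj _ _).symm
    rw [hset, finsum_mem_range, finsum_eq_sum_of_fintype]
    intro a b hab
    apply cycleGraph_edge_inj
    have h2 : Function.Injective (Sym2.map (fun t : Fin (n + 3) => (φ.symm t : V))) := by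
      apply Sym2.map.injective
      intro a b hab
      exact φ.symm.injective (Subtype.ext hab)
    apply h2
    simpa [Sym2.map_mk] using hab

theorem bridge_mpr (G : SimpleGraph V) (c : Sym2 V → Γ)
    (h : ∃ w : Fin (n + 3) → V, Function.Injective w ∧ (∀ t, G.Adj (w t) (w (t + 1))) ∧
      ∑ t, c s(w t, w (t + 1)) = 0) :
    ∃ H : G.Subgraph, Nonempty (H.coe ≃g SimpleGraph.cycleGraph (n + 3)) ∧
      ∑ᶠ e ∈ H.edgeSet, c e = 0 := by
  obtain ⟨w, hw, hadj, hsum⟩ := h
  let f : SimpleGraph.Copy (SimpleGraph.cycleGraph (n + 3)) G :=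
    ⟨⟨w, by
      intro a b hab
      rw [SimpleGraph.cycleGraph_adj] at hab
      rcases hab with h1 | h1
      · have : a = b + 1 := by rw [← h1]; simp
        rw [this]; exact (hadj b).symm
      · have : b = a + 1 := by rw [← h1]; simp
        rw [this]; exact hadj a⟩, hw⟩
  refine ⟨f.toSubgraph, ⟨f.isoToSubgraph.symm⟩, ?_⟩
  rw [← hsum]
  have hset : f.toSubgraph.edgeSet = Set.range (fun t : Fin (n + 3) => s(w t, w (t + 1))) := by
    ext e
    induction e with
    | _ u v =>
      rw [SimpleGraph.Subgraph.mem_edgeSet]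
      simp only [Set.mem_range, Sym2.eq_iff, SimpleGraph.Subgraph.map_adj, Relation.Map,
        SimpleGraph.Subgraph.top_adj]
      constructor
      · rintro ⟨a, b, hab, rfl, rfl⟩
        rw [SimpleGraph.cycleGraph_adj] at hab
        rcases hab with h1 | h1
        · have : a = b + 1 := by rw [← h1]; simp
          exact ⟨b, Or.inr ⟨rfl, by rw [this]; rfl⟩⟩
        · have : b = a + 1 := by rw [← h1]; simp
          exact ⟨a, Or.inl ⟨rfl, by rw [this]; rfl⟩⟩
      · rintro ⟨t, ⟨h1, h2⟩ | ⟨h1, h2⟩⟩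
        · exact ⟨t, t + 1, cycleGraph_adj_succ t, h1, h2⟩
        · exact ⟨t + 1, t, (cycleGraph_adj_succ t).symm, h2, h1⟩
  rw [hset, finsum_mem_range, finsum_eq_sum_of_fintype]
  intro a b hab
  apply cycleGraph_edge_inj
  apply Sym2.map.injective hw
  simpa [Sym2.map_mk] using hab

end bridge

section characters

theorem zmod2_cases (z : ZMod 2) : z = 0 ∨ z = 1 := by
  revert z; decide

/-- the sign of a residue mod 2 -/
def sgn (z : ZMod 2) : ℝ := if z = 0 then 1 else -1

theorem sgn_zero : sgn 0 = 1 := by simp [sgn]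

theorem sgn_one : sgn 1 = -1 := by
  have : (1 : ZMod 2) ≠ 0 := by decide
  simp [sgn, this]

theorem sgn_add (z w : ZMod 2) : sgn (z + w) = sgn z * sgn w := by
  have h11 : (1 : ZMod 2) + 1 = 0 := by decide
  rcases zmod2_cases z with rfl | rfl <;> rcases zmod2_cases w with rfl | rfl
  · simp [sgn_zero]
  · simp [sgn_zero]
  · simp [sgn_zero]
  · rw [h11, sgn_zero, sgn_one]; norm_num

theorem sgn_sq (z : ZMod 2) : sgn z * sgn z = 1 := by
  rcases zmod2_cases z with rfl | rfl
  · simp [sgn_zero]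
  · simp [sgn_one]

variable {d : ℕ}

/-- the real character of `Z_2^d` with parameter `a` -/
def chi (a v : Fin d → ZMod 2) : ℝ := sgn (∑ i, a i * v i)

theorem chi_add (a v w : Fin d → ZMod 2) : chi a (v + w) = chi a v * chi a w := by
  unfold chi
  rw [← sgn_add, ← Finset.sum_add_distrib]
  congr 1
  apply Finset.sum_congr rfl
  intro i _
  simp [mul_add]

theorem chi_zero_right (a : Fin d → ZMod 2) : chi a 0 = 1 := by
  simp [chi, sgn_zero]

theorem chi_zero_left (v : Fin d → ZMod 2) : chi 0 v = 1 := by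
  simp [chi, sgn_zero]

theorem chi_mul_self (a v : Fin d → ZMod 2) : chi a v * chi a v = 1 := sgn_sq _

theorem chi_sum {ι : Type*} (s : Finset ι) (a : Fin d → ZMod 2) (f : ι → Fin d → ZMod 2) :
    chi a (∑ i ∈ s, f i) = ∏ i ∈ s, chi a (f i) := by
  classical
  induction s using Finset.induction_on with
  | empty => simp [chi_zero_right]
  | insert i s hi ih => rw [Finset.sum_insert hi, Finset.prod_insert hi, chi_add, ih]

theorem chi_comm (a v : Fin d → ZMod 2) : chi a v = chi v a := by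
  unfold chi
  congr 1
  apply Finset.sum_congr rfl
  intro i _
  exact mul_comm _ _

theorem chi_single (v : Fin d → ZMod 2) (i : Fin d) (hi : v i = 1) :
    chi v (Pi.single i 1) = -1 := by
  unfold chi
  have : ∑ j, v j * (Pi.single i 1 : Fin d → ZMod 2) j = 1 := by
    rw [Finset.sum_eq_single i]
    · rw [Pi.single_eq_same, hi, mul_one]
    · intro j _ hj
      rw [Pi.single_eq_of_ne hj, mul_zero]
    · intro h; exact absurd (Finset.mem_univ i) h
  rw [this, sgn_one]

theorem sum_chi_of_ne {v : Fin d → ZMod 2} (hv : v ≠ 0) :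
    ∑ a : Fin d → ZMod 2, chi a v = 0 := by
  obtain ⟨i, hi⟩ : ∃ i, v i ≠ 0 := by
    by_contra h
    exact hv (funext fun i => by_contra fun hi => h ⟨i, hi⟩)
  have hvi : v i = 1 := (zmod2_cases (v i)).resolve_left hi
  have h1 : ∑ a : Fin d → ZMod 2, chi (a + Pi.single i 1) v =
      ∑ a : Fin d → ZMod 2, chi a v :=
    Equiv.sum_comp (Equiv.addRight (Pi.single i 1 : Fin d → ZMod 2)) (fun a => chi a v)
  have h2 : ∀ a : Fin d → ZMod 2, chi (a + Pi.single i 1) v = - chi a v := by
    intro a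
    rw [chi_comm, chi_add, chi_comm v a, chi_single v i hvi]
    ring
  rw [Finset.sum_congr rfl (fun a _ => h2 a), Finset.sum_neg_distrib] at h1
  exact neg_eq_self.mp h1

theorem sum_chi_zero : ∑ a : Fin d → ZMod 2, chi a 0 = 2 ^ d := by
  simp [chi_zero_right]

end characters

section walks

variable {V : Type*} [Fintype V] [DecidableEq V]

/-- the product `B 0 * B 1 * ⋯ * B (n-1)` -/
def Q (B : ℕ → Matrix V V ℝ) : ℕ → Matrix V V ℝ
  | 0 => 1
  | n + 1 => Q B n * B n

theorem path_expand (B : ℕ → Matrix V V ℝ) (n : ℕ) (u v : V) :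
    Q B n u v = ∑ w : Fin (n + 1) → V, if w 0 = u ∧ w (Fin.last n) = v then
      ∏ t : Fin n, B t (w t.castSucc) (w t.succ) else 0 := by
  induction n generalizing v with
  | zero =>
    rw [← (Equiv.funUnique (Fin 1) V).symm.sum_comp]
    simp only [Q, Matrix.one_apply]
    by_cases h : u = v
    · subst h
      simp
    · rw [if_neg h]
      symm
      apply Finset.sum_eq_zero
      intro x _
      rw [if_neg]
      rintro ⟨h1, h2⟩
      apply h
      rw [← h1, ← h2]
      rfl
  | succ n ih =>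
    rw [← (Fin.snocEquiv (fun _ : Fin (n + 2) => V)).sum_comp]
    rw [Fintype.sum_prod_type_right]
    simp only [Q, Matrix.mul_apply]
    have h1 : ∀ x, Q B n u x * B n x v = ∑ w : Fin (n + 1) → V,
        (if w 0 = u ∧ w (Fin.last n) = x then
          (∏ t : Fin n, B t (w t.castSucc) (w t.succ)) * B n x v else 0) := by
      intro x
      rw [ih, Finset.sum_mul]
      apply Finset.sum_congr rfl
      intro w _
      split_ifs <;> simp
    rw [Finset.sum_congr rfl (fun x _ => h1 x), Finset.sum_comm]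
    apply Finset.sum_congr rfl
    intro w _
    have hL : (∑ x, if w 0 = u ∧ w (Fin.last n) = x then
          (∏ t : Fin n, B t (w t.castSucc) (w t.succ)) * B n x v else 0) =
        if w 0 = u then (∏ t : Fin n, B t (w t.castSucc) (w t.succ)) * B n (w (Fin.last n)) v
          else 0 := by
      by_cases h0 : w 0 = u
      · simp [h0]
      · simp [h0]
    rw [hL]
    have hR : ∀ y : V, (if (Fin.snocEquiv (fun _ : Fin (n + 2) => V)) (y, w) 0 = u ∧
        (Fin.snocEquiv (fun _ : Fin (n + 2) => V)) (y, w) (Fin.last (n + 1)) = v then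
        ∏ t : Fin (n + 1), B t ((Fin.snocEquiv (fun _ : Fin (n + 2) => V)) (y, w) t.castSucc)
          ((Fin.snocEquiv (fun _ : Fin (n + 2) => V)) (y, w) t.succ) else 0) =
        if w 0 = u ∧ y = v then (∏ t : Fin n, B t (w t.castSucc) (w t.succ)) *
          B n (w (Fin.last n)) y else 0 := by
      intro y
      have e0 : (Fin.snocEquiv (fun _ : Fin (n + 2) => V)) (y, w) 0 = w 0 := by
        show Fin.snoc (α := fun _ => V) w y (Fin.castSucc 0) = w 0
        rw [Fin.snoc_castSucc]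
      have el : (Fin.snocEquiv (fun _ : Fin (n + 2) => V)) (y, w) (Fin.last (n + 1)) = y := by
        show Fin.snoc (α := fun _ => V) w y (Fin.last (n + 1)) = y
        rw [Fin.snoc_last]
      have ec : ∀ t : Fin (n + 1),
          (Fin.snocEquiv (fun _ : Fin (n + 2) => V)) (y, w) t.castSucc = w t := by
        intro t
        show Fin.snoc (α := fun _ => V) w y (Fin.castSucc t) = w t
        rw [Fin.snoc_castSucc]
      rw [e0, el, Fin.prod_univ_castSucc]
      congr 1
      congr 1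
      · apply Finset.prod_congr rfl
        intro t _
        rw [ec, show (t.castSucc.succ : Fin (n + 2)) = t.succ.castSucc from rfl, ec]
        rfl
      · rw [ec, show ((Fin.last n).succ : Fin (n + 2)) = Fin.last (n + 1) from rfl, el]
        rfl
    rw [Finset.sum_congr rfl (fun y _ => hR y)]
    by_cases h0 : w 0 = u
    · simp [h0]
    · simp [h0]

theorem trace_expand (B : ℕ → Matrix V V ℝ) (n : ℕ) :
    ∑ w : Fin (n + 1) → V, ∏ t : Fin (n + 1), B t (w t) (w (t + 1)) =
      (Q B (n + 1)).trace := by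
  have h1 : (Q B (n + 1)).trace = ∑ u, ∑ x, ∑ w : Fin (n + 1) → V,
      (if w 0 = u ∧ w (Fin.last n) = x then
          (∏ t : Fin n, B t (w t.castSucc) (w t.succ)) * B n x u else 0) := by
    simp only [Matrix.trace, Matrix.diag, Q, Matrix.mul_apply]
    apply Finset.sum_congr rfl
    intro u _
    apply Finset.sum_congr rfl
    intro x _
    rw [path_expand, Finset.sum_mul]
    apply Finset.sum_congr rfl
    intro w _
    split_ifs <;> simp
  rw [h1]
  have h2 : ∀ u : V, (∑ x, ∑ w : Fin (n + 1) → V,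
      (if w 0 = u ∧ w (Fin.last n) = x then
          (∏ t : Fin n, B t (w t.castSucc) (w t.succ)) * B n x u else 0)) =
      ∑ w : Fin (n + 1) → V, (if w 0 = u then
          (∏ t : Fin n, B t (w t.castSucc) (w t.succ)) * B n (w (Fin.last n)) u else 0) := by
    intro u
    rw [Finset.sum_comm]
    apply Finset.sum_congr rfl
    intro w _
    by_cases h0 : w 0 = u
    · simp [h0]
    · simp [h0]
  rw [Finset.sum_congr rfl (fun u _ => h2 u), Finset.sum_comm]
  apply Finset.sum_congr rfl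
  intro w _
  rw [Fin.prod_univ_castSucc]
  simp only [Fin.coeSucc_eq_succ, Fin.last_add_one, Fin.val_castSucc, Fin.val_last]
  simp

/-- the matrices `A`, with the two at positions `i` and `j` cut down to row `v` -/
def Bv (A : Matrix V V ℝ) (v : V) (i j t : ℕ) : Matrix V V ℝ :=
  if t = i ∨ t = j then Matrix.single v v 1 * A else A

theorem Q_const (A : Matrix V V ℝ) (n : ℕ) : Q (fun _ => A) n = A ^ n := by
  induction n with
  | zero => simp [Q]
  | succ n ih => rw [Q, ih, pow_succ]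

theorem Q_Bv_le (A : Matrix V V ℝ) (v : V) {i j : ℕ} (hij : i < j) (t : ℕ) (ht : t ≤ i) :
    Q (Bv A v i j) t = A ^ t := by
  induction t with
  | zero => simp [Q]
  | succ t ih =>
    rw [Q, ih (by omega), pow_succ, Bv, if_neg (by omega)]

theorem Q_Bv_mid (A : Matrix V V ℝ) (v : V) {i j : ℕ} (s : ℕ) (hs : i + 1 + s ≤ j) :
    Q (Bv A v i j) (i + 1 + s) = A ^ i * Matrix.single v v 1 * A ^ (s + 1) := by
  induction s with
  | zero =>
    rw [add_zero, Q, Q_Bv_le A v (by omega) i le_rfl, Bv, if_pos (by omega)]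
    simp [mul_assoc]
  | succ s ih =>
    rw [← add_assoc, Q, ih (by omega), Bv, if_neg (by omega), pow_succ _ (s + 1)]
    simp only [mul_assoc]

theorem Q_Bv_gt (A : Matrix V V ℝ) (v : V) {i j : ℕ} (hij : i < j) (s : ℕ) :
    Q (Bv A v i j) (j + 1 + s) = A ^ i * Matrix.single v v 1 * A ^ (j - i) *
      Matrix.single v v 1 * A ^ (s + 1) := by
  induction s with
  | zero =>
    obtain ⟨r, rfl⟩ : ∃ r, j = i + 1 + r := ⟨j - (i + 1), by omega⟩
    rw [add_zero, Q, Q_Bv_mid A v r (by omega), Bv, if_pos (by omega)]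
    have : i + 1 + r - i = r + 1 := by omega
    rw [this]
    simp [mul_assoc]
  | succ s ih =>
    rw [← add_assoc, Q, ih, Bv, if_neg (by omega), pow_succ _ (s + 1)]
    simp only [mul_assoc]

theorem single_mul_mul_single (M : Matrix V V ℝ) (v : V) :
    Matrix.single v v (1 : ℝ) * M * Matrix.single v v 1 = M v v • Matrix.single v v (1 : ℝ) := by
  rw [Matrix.single_mul_mul_single, Matrix.smul_single]
  simp

theorem trace_single_mul (M : Matrix V V ℝ) (v : V) :
    (Matrix.single v v (1 : ℝ) * M).trace = M v v := by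
  unfold Matrix.trace
  rw [Finset.sum_eq_single v]
  · rw [Matrix.diag_apply, Matrix.single_mul_apply_same, one_mul]
  · intro b _ hb
    rw [Matrix.diag_apply, Matrix.single_mul_apply_of_ne _ _ _ _ _ hb]
  · intro h; exact absurd (Finset.mem_univ v) h

theorem trace_cut (A : Matrix V V ℝ) (v : V) (i p q : ℕ) :
    (A ^ i * Matrix.single v v 1 * A ^ p * Matrix.single v v 1 * A ^ q).trace =
      (A ^ p) v v * (A ^ (q + i)) v v := by
  have h : A ^ i * Matrix.single v v 1 * A ^ p * Matrix.single v v 1 * A ^ q =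
      A ^ i * (Matrix.single v v 1 * A ^ p * Matrix.single v v 1) * A ^ q := by
    simp only [mul_assoc]
  rw [h, single_mul_mul_single, Matrix.trace_mul_cycle, ← pow_add, Matrix.trace_mul_comm,
    Matrix.smul_mul, Matrix.trace_smul, trace_single_mul, smul_eq_mul]

theorem sum_repeat (A : Matrix V V ℝ) (n : ℕ) (i j : Fin (n + 1)) (hij : i < j) :
    (∑ w : Fin (n + 1) → V, if w i = w j then ∏ t : Fin (n + 1), A (w t) (w (t + 1)) else 0) =
      ∑ v, (A ^ ((j : ℕ) - i)) v v * (A ^ (n + 1 - ((j : ℕ) - i))) v v := by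
  have h1 : ∀ w : Fin (n + 1) → V,
      (if w i = w j then ∏ t : Fin (n + 1), A (w t) (w (t + 1)) else 0) =
      ∑ v, ∏ t : Fin (n + 1), (Bv A v i j t) (w t) (w (t + 1)) := by
    intro w
    have h2 : ∀ v, ∏ t : Fin (n + 1), (Bv A v i j t) (w t) (w (t + 1)) =
        if v = w i ∧ v = w j then ∏ t : Fin (n + 1), A (w t) (w (t + 1)) else 0 := by
      intro v
      have h3 : ∀ t : Fin (n + 1), (Bv A v i j t) (w t) (w (t + 1)) =
          (if (t = i ∨ t = j) ∧ v ≠ w t then 0 else A (w t) (w (t + 1))) := by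
        intro t
        unfold Bv
        by_cases ht : t = i ∨ t = j
        · rw [if_pos (by rcases ht with rfl | rfl <;> simp)]
          by_cases hv : v = w t
          · rw [if_neg (by tauto), ← hv, Matrix.single_mul_apply_same, one_mul]
          · rw [if_pos ⟨ht, hv⟩]
            rw [Matrix.single_mul_apply_of_ne _ _ _ _ _ (Ne.symm hv)]
        · rw [if_neg (by rw [← Fin.ext_iff, ← Fin.ext_iff]; exact ht), if_neg (by tauto)]
      rw [Finset.prod_congr rfl (fun t _ => h3 t)]
      by_cases hv : v = w i ∧ v = w j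
      · rw [if_pos hv]
        apply Finset.prod_congr rfl
        intro t _
        rw [if_neg]
        rintro ⟨rfl | rfl, h⟩
        · exact h hv.1
        · exact h hv.2
      · rw [if_neg hv]
        by_cases hi : v = w i
        · apply Finset.prod_eq_zero (Finset.mem_univ j)
          rw [if_pos ⟨Or.inr rfl, fun h => hv ⟨hi, h⟩⟩]
        · apply Finset.prod_eq_zero (Finset.mem_univ i)
          rw [if_pos ⟨Or.inl rfl, hi⟩]
    rw [Finset.sum_congr rfl (fun v _ => h2 v)]
    by_cases hw : w i = w j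
    · simp [hw]
    · rw [if_neg hw]
      symm
      apply Finset.sum_eq_zero
      intro v _
      rw [if_neg]
      rintro ⟨h, h'⟩
      exact hw (h.symm.trans h')
  rw [Finset.sum_congr rfl (fun w _ => h1 w), Finset.sum_comm]
  apply Finset.sum_congr rfl
  intro v _
  rw [trace_expand (Bv A v i j) n]
  have hij' : (i : ℕ) < j := hij
  have hj := j.isLt
  have key : ∀ (i' j' n' : ℕ), i' < j' → j' < n' + 1 → (Q (Bv A v i' j') (n' + 1)).trace =
      (A ^ (j' - i')) v v * (A ^ (n' + 1 - (j' - i'))) v v := by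
    intro i' j' n' h1 h2
    obtain ⟨s, hs⟩ : ∃ s, n' + 1 = j' + 1 + s := ⟨n' - j', by omega⟩
    have h3 : s + 1 + i' = j' + 1 + s - (j' - i') := by omega
    rw [hs, Q_Bv_gt A v h1, trace_cut, h3]
  exact key i j n hij' hj

end walks

section moments

theorem ratio_mono {b : ℕ → ℝ} (hpos : ∀ k, 0 < b k)
    (hlog : ∀ k, b (k + 1) ^ 2 ≤ b k * b (k + 2)) (i s : ℕ) :
    b (i + 1) * b (i + s) ≤ b i * b (i + s + 1) := by
  induction s with
  | zero => rw [add_zero, mul_comm]
  | succ s ih =>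
    have h1 := hlog (i + s)
    have h2 := hpos (i + s + 1)
    have h3 := hpos (i + 1)
    have h4 := hpos (i + s + 2)
    rw [show i + (s + 1) = i + s + 1 from rfl]
    have h5 : b (i + 1) * b (i + s + 1) * b (i + s + 1) ≤
        b i * b (i + s + 1 + 1) * b (i + s + 1) := by
      calc b (i + 1) * b (i + s + 1) * b (i + s + 1) = b (i + 1) * b (i + s + 1) ^ 2 := by ring
        _ ≤ b (i + 1) * (b (i + s) * b (i + s + 2)) := mul_le_mul_of_nonneg_left h1 h3.le
        _ = (b (i + 1) * b (i + s)) * b (i + s + 2) := by ring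
        _ ≤ (b i * b (i + s + 1)) * b (i + s + 2) := mul_le_mul_of_nonneg_right ih h4.le
        _ = b i * b (i + s + 1 + 1) * b (i + s + 1) := by ring_nf
    exact le_of_mul_le_mul_right h5 h2

theorem moment_aux {b : ℕ → ℝ} (hpos : ∀ k, 0 < b k)
    (hlog : ∀ k, b (k + 1) ^ 2 ≤ b k * b (k + 2)) (p q : ℕ) (hpq : p ≤ q) :
    b (p + 1) * b (q + 1) ≤ b 1 * b (p + q + 1) := by
  induction p generalizing q with
  | zero => rw [zero_add, zero_add]
  | succ p ih =>
    obtain ⟨s, hs⟩ : ∃ s, q + 1 = (p + 1) + s := ⟨q - p, by omega⟩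
    have h1 := ratio_mono hpos hlog (p + 1) s
    rw [← hs] at h1
    calc b (p + 1 + 1) * b (q + 1) ≤ b (p + 1) * b (q + 1 + 1) := h1
      _ ≤ b 1 * b (p + (q + 1) + 1) := ih (q + 1) (by omega)
      _ = b 1 * b (p + 1 + q + 1) := by congr 2; omega

theorem moment_ineq {b : ℕ → ℝ} (hpos : ∀ k, 0 < b k)
    (hlog : ∀ k, b (k + 1) ^ 2 ≤ b k * b (k + 2)) (p q : ℕ) :
    b (p + 1) * b (q + 1) ≤ b 1 * b (p + q + 1) := by
  rcases le_total p q with h | h
  · exact moment_aux hpos hlog p q h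
  · rw [mul_comm, add_comm p q]
    exact moment_aux hpos hlog q p h

variable {V : Type*} [Fintype V] [DecidableEq V]

theorem even_moment (A : Matrix V V ℝ) (hA : A.IsSymm) (v : V) (i j : ℕ) :
    (A ^ (i + j)) v v = ∑ u, (A ^ i) v u * (A ^ j) v u := by
  rw [pow_add, Matrix.mul_apply]
  apply Finset.sum_congr rfl
  intro u _
  have h : (A ^ j).IsSymm := hA.pow j
  rw [h.apply]

theorem log_convex (A : Matrix V V ℝ) (hA : A.IsSymm) (v : V) (k : ℕ) :
    ((A ^ (2 * (k + 1))) v v) ^ 2 ≤ (A ^ (2 * k)) v v * (A ^ (2 * (k + 2))) v v := by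
  have h1 : (A ^ (2 * (k + 1))) v v = ∑ u, (A ^ k) v u * (A ^ (k + 2)) v u := by
    rw [show 2 * (k + 1) = k + (k + 2) by ring]; exact even_moment A hA v _ _
  have h2 : (A ^ (2 * k)) v v = ∑ u, (A ^ k) v u ^ 2 := by
    rw [show 2 * k = k + k by ring, even_moment A hA v]
    simp only [sq]
  have h3 : (A ^ (2 * (k + 2))) v v = ∑ u, (A ^ (k + 2)) v u ^ 2 := by
    rw [show 2 * (k + 2) = (k + 2) + (k + 2) by ring, even_moment A hA v]
    simp only [sq]
  rw [h1, h2, h3]
  exact Finset.sum_mul_sq_le_sq_mul_sq _ _ _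

theorem even_pos (A : Matrix V V ℝ) (hA : A.IsSymm) (v : V) (h1 : 0 < (A ^ 2) v v) (k : ℕ) :
    0 < (A ^ (2 * k)) v v ∧ 0 < (A ^ (2 * (k + 1))) v v := by
  induction k with
  | zero => simpa using h1
  | succ k ih =>
    refine ⟨ih.2, ?_⟩
    have h := log_convex A hA v k
    have h2 : 0 < ((A ^ (2 * (k + 1))) v v) ^ 2 := pow_pos ih.2 2
    exact (mul_pos_iff_of_pos_left ih.1).mp (lt_of_lt_of_le h2 h)

theorem even_nonneg (A : Matrix V V ℝ) (hA : A.IsSymm) (v : V) (k : ℕ) :
    0 ≤ (A ^ (2 * k)) v v := by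
  rw [show 2 * k = k + k by ring, even_moment A hA v]
  exact Finset.sum_nonneg fun u _ => mul_self_nonneg _

theorem moment_main (A : Matrix V V ℝ) (hA : A.IsSymm) (v : V) (h1 : 0 < (A ^ 2) v v)
    (p q : ℕ) :
    (A ^ (2 * (p + 1))) v v * (A ^ (2 * (q + 1))) v v ≤
      (A ^ 2) v v * (A ^ (2 * (p + q + 1))) v v := by
  have := moment_ineq (b := fun k => (A ^ (2 * k)) v v) (fun k => (even_pos A hA v h1 k).1)
    (fun k => log_convex A hA v k) p q
  simpa using this

theorem parity (A : Matrix V V ℝ) (side : V → Bool) (h : ∀ u v, side u = side v → A u v = 0)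
    (p : ℕ) (u v : V) :
    (Even p → side u ≠ side v → (A ^ p) u v = 0) ∧
    (¬ Even p → side u = side v → (A ^ p) u v = 0) := by
  induction p generalizing v with
  | zero =>
    constructor
    · intro _ huv
      rw [pow_zero, Matrix.one_apply_ne]
      rintro rfl
      exact huv rfl
    · intro h0; exact absurd (by simp) h0
  | succ p ih =>
    constructor
    · intro hp huv
      rw [pow_succ, Matrix.mul_apply]
      apply Finset.sum_eq_zero
      intro x _
      by_cases hx : side u = side x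
      · rw [(ih x).2 (by rw [Nat.even_add_one] at hp; exact hp) hx, zero_mul]
      · rw [h x v, mul_zero]
        revert hx huv
        cases side u <;> cases side v <;> cases side x <;> simp
    · intro hp huv
      rw [pow_succ, Matrix.mul_apply]
      apply Finset.sum_eq_zero
      intro x _
      by_cases hx : side u = side x
      · rw [h x v (by rw [← hx, huv]), mul_zero]
      · rw [(ih x).1 (by rw [Nat.even_add_one, not_not] at hp; exact hp) hx, zero_mul]

theorem moment_final (A : Matrix V V ℝ) (hA : A.IsSymm) (side : V → Bool)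
    (h : ∀ u v, side u = side v → A u v = 0) (v : V) (h1 : 0 < (A ^ 2) v v)
    (p q k : ℕ) (hp : 1 ≤ p) (hq : 1 ≤ q) (hpq : p + q = 2 * (k + 1)) :
    (A ^ p) v v * (A ^ q) v v ≤ (A ^ 2) v v * (A ^ (2 * k)) v v := by
  by_cases hpe : Even p
  · obtain ⟨p', hp'⟩ := hpe
    obtain ⟨p'', rfl⟩ : ∃ p'', p' = p'' + 1 := ⟨p' - 1, by omega⟩
    obtain ⟨q'', rfl⟩ : ∃ q'', q = 2 * (q'' + 1) := ⟨k - p'' - 1, by omega⟩
    have hp2 : p = 2 * (p'' + 1) := by omega
    subst hp2
    have hk : k = p'' + q'' + 1 := by omega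
    subst hk
    exact moment_main A hA v h1 p'' q''
  · rw [(parity A side h p v v).2 hpe rfl, zero_mul]
    exact mul_nonneg h1.le (even_nonneg A hA v k)

end moments

section upper

variable {N d : ℕ}

/-- the complete bipartite graph `K_{N,N}` -/
abbrev KNN (N : ℕ) : SimpleGraph (Fin N ⊕ Fin N) := completeBipartiteGraph (Fin N) (Fin N)

theorem KNN_adj (u v : Fin N ⊕ Fin N) : (KNN N).Adj u v ↔ u.isLeft ≠ v.isLeft := by
  cases u <;> cases v <;> simp [completeBipartiteGraph]

instance : DecidableRel (KNN N).Adj := fun u v => decidable_of_iff _ (KNN_adj u v).symm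

/-- signed adjacency matrix -/
def SA (c : Sym2 (Fin N ⊕ Fin N) → (Fin d → ZMod 2)) (a : Fin d → ZMod 2) :
    Matrix (Fin N ⊕ Fin N) (Fin N ⊕ Fin N) ℝ :=
  fun u v => if (KNN N).Adj u v then chi a (c s(u, v)) else 0

variable (c : Sym2 (Fin N ⊕ Fin N) → (Fin d → ZMod 2)) (a : Fin d → ZMod 2)

theorem SA_symm : (SA c a).IsSymm := by
  ext u v
  simp only [Matrix.transpose_apply, SA, Sym2.eq_swap (a := v), SimpleGraph.adj_comm _ v u]

theorem SA_side (u v : Fin N ⊕ Fin N) (h : u.isLeft = v.isLeft) : SA c a u v = 0 := by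
  unfold SA
  rw [if_neg]
  rw [KNN_adj]
  exact fun h' => h' h

theorem deg_KNN (v : Fin N ⊕ Fin N) : (∑ u, if (KNN N).Adj v u then (1 : ℝ) else 0) = N := by
  rw [Fintype.sum_sum_type]
  cases v <;> simp [completeBipartiteGraph]

theorem SA_sq (v : Fin N ⊕ Fin N) : (SA c a ^ 2) v v = N := by
  rw [show (2 : ℕ) = 1 + 1 from rfl, even_moment _ (SA_symm c a), pow_one, ← deg_KNN v]
  apply Finset.sum_congr rfl
  intro u _
  unfold SA
  split_ifs
  · exact chi_mul_self _ _
  · simp

/-- the sum over all characters of the `2k`-th spectral moment -/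
noncomputable def T (k : ℕ) : ℝ := ∑ a : Fin d → ZMod 2, (SA c a ^ (2 * k)).trace

theorem T_one : T c 1 = 2 ^ d * (2 * N * N) := by
  unfold T Matrix.trace
  simp only [mul_one, Matrix.diag_apply, SA_sq]
  simp
  left
  ring

/-- the sum over all characters of the weight of a closed walk -/
noncomputable def S {n : ℕ} (w : Fin (n + 1) → Fin N ⊕ Fin N) : ℝ :=
  ∑ a : Fin d → ZMod 2, ∏ t : Fin (n + 1), SA c a (w t) (w (t + 1))

theorem S_closed {n : ℕ} (w : Fin (n + 1) → Fin N ⊕ Fin N)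
    (h : ∀ t, (KNN N).Adj (w t) (w (t + 1))) :
    S c w = ∑ a : Fin d → ZMod 2, chi a (∑ t, c s(w t, w (t + 1))) := by
  unfold S
  apply Finset.sum_congr rfl
  intro a _
  rw [chi_sum]
  apply Finset.prod_congr rfl
  intro t _
  unfold SA
  rw [if_pos (h t)]

theorem S_nonneg {n : ℕ} (w : Fin (n + 1) → Fin N ⊕ Fin N) : 0 ≤ S c w := by
  by_cases h : ∀ t, (KNN N).Adj (w t) (w (t + 1))
  · rw [S_closed c w h]
    by_cases hz : (∑ t, c s(w t, w (t + 1))) = 0
    · rw [hz, sum_chi_zero]; positivity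
    · rw [sum_chi_of_ne hz]
  · unfold S
    apply le_of_eq
    symm
    apply Finset.sum_eq_zero
    intro a _
    obtain ⟨t, ht⟩ := not_forall.mp h
    apply Finset.prod_eq_zero (Finset.mem_univ t)
    unfold SA
    rw [if_neg ht]

theorem S_ne_zero {n : ℕ} (w : Fin (n + 1) → Fin N ⊕ Fin N) (hS : S c w ≠ 0) :
    (∀ t, (KNN N).Adj (w t) (w (t + 1))) ∧ (∑ t, c s(w t, w (t + 1))) = 0 := by
  have h : ∀ t, (KNN N).Adj (w t) (w (t + 1)) := by
    intro t
    by_contra ht
    apply hS
    unfold S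
    apply Finset.sum_eq_zero
    intro a _
    apply Finset.prod_eq_zero (Finset.mem_univ t)
    unfold SA
    rw [if_neg ht]
  refine ⟨h, ?_⟩
  by_contra hz
  apply hS
  rw [S_closed c w h, sum_chi_of_ne hz]

theorem T_eq_sum_S (k : ℕ) :
    T c (k + 1) = ∑ w : Fin (2 * k + 1 + 1) → Fin N ⊕ Fin N, S c w := by
  unfold T S
  rw [Finset.sum_comm]
  apply Finset.sum_congr rfl
  intro a _
  rw [trace_expand (fun _ => SA c a) (2 * k + 1), Q_const]
  rfl

theorem T_rec (k : ℕ) (hN : 0 < N)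
    (hno : ¬ ∃ w : Fin (2 * k + 1 + 1) → Fin N ⊕ Fin N, Function.Injective w ∧
      (∀ t, (KNN N).Adj (w t) (w (t + 1))) ∧ ∑ t, c s(w t, w (t + 1)) = 0) :
    T c (k + 1) ≤ (2 * k + 2) ^ 2 * (N * T c k) := by
  have hNr : (0 : ℝ) < N := by exact_mod_cast hN
  have hTk : ∀ a : Fin d → ZMod 2, ∀ v, 0 ≤ (SA c a ^ (2 * k)) v v := fun a v =>
    even_nonneg _ (SA_symm c a) v k
  -- each closed walk is counted at a repeated vertex
  have h1 : ∀ w : Fin (2 * k + 1 + 1) → Fin N ⊕ Fin N, S c w ≤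
      ∑ i : Fin (2 * k + 1 + 1), ∑ j : Fin (2 * k + 1 + 1),
        if i < j then (if w i = w j then S c w else 0) else 0 := by
    intro w
    have hnn : ∀ i j : Fin (2 * k + 1 + 1),
        0 ≤ if i < j then (if w i = w j then S c w else 0) else 0 := by
      intro i j
      split_ifs
      · exact S_nonneg c w
      · exact le_rfl
      · exact le_rfl
    by_cases hS : S c w = 0
    · rw [hS]
      apply Finset.sum_nonneg
      intro i _
      apply Finset.sum_nonneg
      intro j _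
      have := hnn i j
      rw [hS] at this
      exact this
    · obtain ⟨h2, h3⟩ := S_ne_zero c w hS
      have h4 : ¬ Function.Injective w := fun hw => hno ⟨w, hw, h2, h3⟩
      obtain ⟨i, j, hij, hne⟩ : ∃ i j, w i = w j ∧ i ≠ j := by
        simpa [Function.Injective] using h4
      obtain ⟨i, j, hij, hlt⟩ : ∃ i j, w i = w j ∧ i < j := by
        rcases lt_or_gt_of_ne hne with h | h
        · exact ⟨i, j, hij, h⟩
        · exact ⟨j, i, hij.symm, h⟩
      calc S c w = if i < j then (if w i = w j then S c w else 0) else 0 := by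
            rw [if_pos hlt, if_pos hij]
        _ ≤ ∑ j : Fin (2 * k + 1 + 1), if i < j then (if w i = w j then S c w else 0) else 0 :=
            Finset.single_le_sum (f := fun j =>
              if i < j then (if w i = w j then S c w else 0) else 0)
              (fun j _ => hnn i j) (Finset.mem_univ j)
        _ ≤ _ :=
            Finset.single_le_sum (f := fun i => ∑ j : Fin (2 * k + 1 + 1),
              if i < j then (if w i = w j then S c w else 0) else 0)
              (fun i _ => Finset.sum_nonneg fun j _ => hnn i j) (Finset.mem_univ i)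
  rw [T_eq_sum_S]
  have h2 : ∀ i j : Fin (2 * k + 1 + 1), (∑ w : Fin (2 * k + 1 + 1) → Fin N ⊕ Fin N,
      if i < j then (if w i = w j then S c w else 0) else 0) ≤ N * T c k := by
    intro i j
    have hT0 : 0 ≤ T c k := by
      unfold T Matrix.trace
      exact Finset.sum_nonneg fun a _ => Finset.sum_nonneg fun v _ => hTk a v
    by_cases hij : i < j
    · simp only [if_pos hij]
      have h3 : (∑ w : Fin (2 * k + 1 + 1) → Fin N ⊕ Fin N, if w i = w j then S c w else 0) =
          ∑ a : Fin d → ZMod 2, ∑ w : Fin (2 * k + 1 + 1) → Fin N ⊕ Fin N,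
            if w i = w j then ∏ t, SA c a (w t) (w (t + 1)) else 0 := by
        rw [Finset.sum_comm]
        apply Finset.sum_congr rfl
        intro w _
        unfold S
        split_ifs
        · rfl
        · simp
      rw [h3]
      unfold T
      rw [Finset.mul_sum]
      apply Finset.sum_le_sum
      intro a _
      rw [sum_repeat (SA c a) (2 * k + 1) i j hij]
      unfold Matrix.trace
      rw [Finset.mul_sum]
      apply Finset.sum_le_sum
      intro v _
      have hlt : (i : ℕ) < j := hij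
      have hj := j.isLt
      have h5 := moment_final (SA c a) (SA_symm c a) (fun u => u.isLeft)
        (fun u v h => SA_side c a u v h) v (by rw [SA_sq]; exact hNr)
        ((j : ℕ) - i) (2 * k + 1 + 1 - ((j : ℕ) - i)) k (by omega) (by omega) (by omega)
      rw [SA_sq] at h5
      exact h5
    · simp only [if_neg hij, Finset.sum_const_zero]
      exact mul_nonneg hNr.le hT0
  calc ∑ w : Fin (2 * k + 1 + 1) → Fin N ⊕ Fin N, S c w
      ≤ ∑ w : Fin (2 * k + 1 + 1) → Fin N ⊕ Fin N,
        ∑ i : Fin (2 * k + 1 + 1), ∑ j : Fin (2 * k + 1 + 1),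
        (if i < j then (if w i = w j then S c w else 0) else 0) :=
        Finset.sum_le_sum fun w _ => h1 w
    _ = ∑ i : Fin (2 * k + 1 + 1), ∑ j : Fin (2 * k + 1 + 1),
        ∑ w : Fin (2 * k + 1 + 1) → Fin N ⊕ Fin N,
        (if i < j then (if w i = w j then S c w else 0) else 0) := by
        rw [Finset.sum_comm]
        apply Finset.sum_congr rfl
        intro i _
        rw [Finset.sum_comm]
    _ ≤ ∑ i : Fin (2 * k + 1 + 1), ∑ j : Fin (2 * k + 1 + 1), (N * T c k) :=
        Finset.sum_le_sum fun i _ => Finset.sum_le_sum fun j _ => h2 i j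
    _ = (2 * k + 2) ^ 2 * (N * T c k) := by
        simp
        ring

end upper

section upper2

variable {N d : ℕ}

theorem SA_zero_row (c : Sym2 (Fin N ⊕ Fin N) → (Fin d → ZMod 2)) (p : ℕ)
    (u : Fin N ⊕ Fin N) : ∑ v, (SA c 0 ^ p) u v = (N : ℝ) ^ p := by
  induction p with
  | zero => simp [Matrix.one_apply]
  | succ p ih =>
    simp only [pow_succ, Matrix.mul_apply]
    rw [Finset.sum_comm]
    have h : ∀ x, ∑ v, (SA c 0 ^ p) u x * SA c 0 x v = (SA c 0 ^ p) u x * N := by
      intro x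
      rw [← Finset.mul_sum]
      congr 1
      rw [← deg_KNN x]
      apply Finset.sum_congr rfl
      intro v _
      unfold SA
      rw [chi_zero_left]
    rw [Finset.sum_congr rfl (fun x _ => h x), ← Finset.sum_mul, ih]

theorem T_lower (c : Sym2 (Fin N ⊕ Fin N) → (Fin d → ZMod 2)) (k : ℕ) (hN : 0 < N) :
    (N : ℝ) ^ (2 * k) ≤ T c k := by
  have hNr : (0 : ℝ) < N := by exact_mod_cast hN
  have h1 : (SA c 0 ^ (2 * k)).trace ≤ T c k := by
    unfold T
    apply Finset.single_le_sum (f := fun a => (SA c a ^ (2 * k)).trace) _ (Finset.mem_univ 0)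
    intro a _
    unfold Matrix.trace
    exact Finset.sum_nonneg fun v _ => even_nonneg _ (SA_symm c a) v k
  refine le_trans ?_ h1
  have h2 : ∀ u : Fin N ⊕ Fin N, (N : ℝ) ^ (2 * k) / (2 * N) ≤ (SA c 0 ^ (2 * k)) u u := by
    intro u
    have h3 : (SA c 0 ^ (2 * k)) u u = ∑ v, ((SA c 0 ^ k) u v) ^ 2 := by
      rw [show 2 * k = k + k by ring, even_moment _ (SA_symm c 0)]
      simp only [sq]
    rw [h3, div_le_iff₀ (by positivity)]
    have h4 := sq_sum_le_card_mul_sum_sq (s := (Finset.univ : Finset (Fin N ⊕ Fin N)))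
      (f := fun v => (SA c 0 ^ k) u v)
    rw [SA_zero_row] at h4
    have h5 : ((Finset.univ : Finset (Fin N ⊕ Fin N)).card : ℝ) = 2 * N := by
      simp; ring
    rw [h5] at h4
    calc (N : ℝ) ^ (2 * k) = ((N : ℝ) ^ k) ^ 2 := by ring
      _ ≤ _ := h4
      _ = _ := by ring
  calc (N : ℝ) ^ (2 * k) = ∑ _u : Fin N ⊕ Fin N, (N : ℝ) ^ (2 * k) / (2 * N) := by
        simp
        field_simp
        ring
    _ ≤ _ := by
        unfold Matrix.trace
        exact Finset.sum_le_sum fun u _ => h2 u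

/-- the constant in the upper bound -/
def K : ℕ → ℕ
  | 0 => 2
  | k + 1 => (2 * (k + 1) + 2) ^ 2 * K k

theorem K_pos (k : ℕ) : 1 ≤ K k := by
  induction k with
  | zero => simp [K]
  | succ k ih =>
    rw [K]
    exact Nat.one_le_iff_ne_zero.mpr (by positivity)

/-- No zero-sum closed walk with all vertices distinct, of any even length from 4 to `2m` -/
def NoZ (m : ℕ) (c : Sym2 (Fin N ⊕ Fin N) → (Fin d → ZMod 2)) : Prop :=
  ∀ k, 1 ≤ k → k + 1 ≤ m → ¬ ∃ w : Fin (2 * k + 1 + 1) → Fin N ⊕ Fin N, Function.Injective w ∧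
      (∀ t, (KNN N).Adj (w t) (w (t + 1))) ∧ ∑ t, c s(w t, w (t + 1)) = 0

theorem T_upper (m : ℕ) (c : Sym2 (Fin N ⊕ Fin N) → (Fin d → ZMod 2)) (hN : 0 < N)
    (h : NoZ m c) (k : ℕ) (hk : k + 1 ≤ m) : T c (k + 1) ≤ K k * 2 ^ d * (N : ℝ) ^ (k + 2) := by
  induction k with
  | zero =>
    rw [zero_add, T_one]
    apply le_of_eq
    simp [K]
    ring
  | succ k ih =>
    have h1 := T_rec c (k + 1) hN (h (k + 1) (by omega) hk)
    have h2 := ih (by omega)
    refine h1.trans ?_
    calc (2 * ((k + 1 : ℕ) : ℝ) + 2) ^ 2 * (N * T c (k + 1)) ≤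
          (2 * ((k + 1 : ℕ) : ℝ) + 2) ^ 2 * (N * (K k * 2 ^ d * (N : ℝ) ^ (k + 2))) := by
          gcongr
      _ = K (k + 1) * 2 ^ d * (N : ℝ) ^ (k + 1 + 2) := by
          rw [K]
          push_cast
          ring

theorem main_upper (m : ℕ) (hm : 2 ≤ m) (c : Sym2 (Fin N ⊕ Fin N) → (Fin d → ZMod 2))
    (hN : 0 < N) (h : NoZ m c) : N ^ (m - 1) ≤ K (m - 1) * 2 ^ d := by
  obtain ⟨k, rfl⟩ : ∃ k, m = k + 1 := ⟨m - 1, by omega⟩
  have h1 := T_upper (k + 1) c hN h k le_rfl
  have h2 := T_lower c (k + 1) hN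
  have h3 : (N : ℝ) ^ (2 * (k + 1)) ≤ K k * 2 ^ d * (N : ℝ) ^ (k + 2) := h2.trans h1
  have h4 : (N : ℝ) ^ (2 * (k + 1)) = (N : ℝ) ^ k * (N : ℝ) ^ (k + 2) := by
    rw [← pow_add]; congr 1; ring
  rw [h4] at h3
  have hNr : (0 : ℝ) < N := by exact_mod_cast hN
  have h5 : (N : ℝ) ^ k ≤ K k * 2 ^ d := le_of_mul_le_mul_right h3 (by positivity)
  have h6 : N ^ k ≤ K k * 2 ^ d := by exact_mod_cast h5
  exact h6

end upper2

section lower

variable {F : Type*} [Field F] {N : ℕ}

/-- the field element of a left vertex, and `0` on the right -/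
def Lv (φ : Fin N → F) : Fin N ⊕ Fin N → F := Sum.elim φ (fun _ => 0)

/-- the field element of a right vertex, and `0` on the left -/
def Rv (φ : Fin N → F) : Fin N ⊕ Fin N → F := Sum.elim (fun _ => 0) φ

theorem Lv_of_right (φ : Fin N → F) {v : Fin N ⊕ Fin N} (h : v.isLeft = false) : Lv φ v = 0 := by
  cases v with
  | inl x => simp at h
  | inr y => rfl

theorem Rv_of_left (φ : Fin N → F) {v : Fin N ⊕ Fin N} (h : v.isLeft = true) : Rv φ v = 0 := by
  cases v with
  | inl x => rfl
  | inr y => simp at h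

theorem Lv_inj (φ : Fin N → F) (hφ : Function.Injective φ) {u v : Fin N ⊕ Fin N}
    (hu : u.isLeft = true) (hv : v.isLeft = true) (h : Lv φ u = Lv φ v) : u = v := by
  cases u with
  | inl x =>
    cases v with
    | inl y => exact congrArg Sum.inl (hφ h)
    | inr y => simp at hv
  | inr x => simp at hu

theorem Rv_inj (φ : Fin N → F) (hφ : Function.Injective φ) {u v : Fin N ⊕ Fin N}
    (hu : u.isLeft = false) (hv : v.isLeft = false) (h : Rv φ u = Rv φ v) : u = v := by
  cases u with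
  | inl x => simp at hu
  | inr x =>
    cases v with
    | inl y => simp at hv
    | inr y => exact congrArg Sum.inr (hφ h)

theorem vandermonde_finset {ι : Type*} [DecidableEq ι] (T : Finset ι) (y δ : ι → F)
    (hy : Set.InjOn y T) (h : ∀ i < T.card, ∑ t ∈ T, δ t * y t ^ i = 0) :
    ∀ t ∈ T, δ t = 0 := by
  let e : Fin T.card ≃ T := T.equivFin.symm
  have h1 : (fun i : Fin T.card => δ (e i)) = 0 := by
    apply Matrix.eq_zero_of_forall_pow_sum_mul_pow_eq_zero (f := fun i => y (e i))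
    · intro a b hab
      have : (e a : ι) = e b := hy (e a).2 (e b).2 hab
      exact e.injective (Subtype.ext this)
    · intro i
      have h2 := h i i.isLt
      rw [← Finset.sum_coe_sort] at h2
      rw [← h2]
      exact (Equiv.sum_comp e (fun t : T => δ t * y t ^ (i : ℕ)))
  intro t ht
  have := congrFun h1 (e.symm ⟨t, ht⟩)
  simpa using this

theorem no_cycle [CharP F 2] (φ : Fin N → F) (hφ : Function.Injective φ) (m l : ℕ) (hl1 : 1 ≤ l)
    (hl : l + 1 ≤ m) (w : Fin (2 * l + 1 + 1) → Fin N ⊕ Fin N) (hw : Function.Injective w)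
    (hadj : ∀ t, (KNN N).Adj (w t) (w (t + 1)))
    (hsum : ∀ j < m - 1, ∑ t, (Lv φ (w t) + Lv φ (w (t + 1))) *
      (Rv φ (w t) + Rv φ (w (t + 1))) ^ (j + 1) = 0) : False := by
  have hside : ∀ t, (w (t + 1)).isLeft = !(w t).isLeft := by
    intro t
    have := (KNN_adj _ _).mp (hadj t)
    revert this
    cases (w t).isLeft <;> cases (w (t + 1)).isLeft <;> simp
  have hside' : ∀ t, (w (t - 1)).isLeft = !(w t).isLeft := by
    intro t
    have := hside (t - 1)
    rw [sub_add_cancel] at this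
    rw [this]; simp
  set T : Finset (Fin (2 * l + 1 + 1)) := Finset.univ.filter (fun t => (w t).isLeft = false)
    with hT
  have hTm : ∀ t, t ∈ T ↔ (w t).isLeft = false := by intro t; simp [hT]
  -- the size of T
  have hcard : T.card = l + 1 := by
    have h1 : T.card = (Tᶜ).card := by
      apply Finset.card_bij (fun t _ => t + 1)
      · intro t ht
        rw [Finset.mem_compl, hTm, hside, (hTm t).mp ht]
        simp
      · intro a _ b _ hab
        exact add_right_cancel hab
      · intro b hb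
        refine ⟨b - 1, ?_, sub_add_cancel b 1⟩
        rw [hTm, hside']
        rw [Finset.mem_compl, hTm] at hb
        simpa using hb
    have h2 := Finset.card_add_card_compl T
    rw [← h1, Fintype.card_fin] at h2
    omega
  -- rewriting the sums
  have hterm : ∀ j t, (Lv φ (w t) + Lv φ (w (t + 1))) *
      (Rv φ (w t) + Rv φ (w (t + 1))) ^ (j + 1) =
      Lv φ (w t) * Rv φ (w (t + 1)) ^ (j + 1) + Lv φ (w (t + 1)) * Rv φ (w t) ^ (j + 1) := by
    intro j t
    have h1 := hside t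
    cases h : (w t).isLeft
    · rw [h] at h1
      rw [Lv_of_right φ h, Rv_of_left φ (v := w (t + 1)) (by simpa using h1)]
      simp
    · rw [h] at h1
      rw [Rv_of_left φ h, Lv_of_right φ (v := w (t + 1)) (by simpa using h1)]
      simp
  have hshift : ∀ j : ℕ, ∑ t, Lv φ (w t) * Rv φ (w (t + 1)) ^ (j + 1) =
      ∑ t, Lv φ (w (t - 1)) * Rv φ (w t) ^ (j + 1) := by
    intro j
    have := Equiv.sum_comp (Equiv.subRight (1 : Fin (2 * l + 1 + 1)))
      (fun t => Lv φ (w t) * Rv φ (w (t + 1)) ^ (j + 1))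
    rw [← this]
    apply Finset.sum_congr rfl
    intro t _
    simp
  let δ : Fin (2 * l + 1 + 1) → F := fun t => Lv φ (w (t - 1)) + Lv φ (w (t + 1))
  have hzero : ∀ i < T.card, ∑ t ∈ T, δ t * (Rv φ (w t)) ^ i = 0 := by
    intro i hi
    rw [hcard] at hi
    rcases Nat.eq_zero_or_pos i with rfl | hpos
    · simp only [pow_zero, mul_one]
      have h1 : ∑ t ∈ T, δ t = ∑ t, δ t := by
        apply Finset.sum_subset (Finset.subset_univ T)
        intro t _ ht
        rw [hTm] at ht
        have h2 : (w t).isLeft = true := by simpa using ht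
        have h3 := hside t
        have h4 := hside' t
        rw [h2] at h3 h4
        show Lv φ (w (t - 1)) + Lv φ (w (t + 1)) = 0
        rw [Lv_of_right φ (v := w (t + 1)) (by simpa using h3),
          Lv_of_right φ (v := w (t - 1)) (by simpa using h4), add_zero]
      rw [h1]
      show ∑ t, (Lv φ (w (t - 1)) + Lv φ (w (t + 1))) = 0
      rw [Finset.sum_add_distrib]
      have h2 := Equiv.sum_comp (Equiv.subRight (1 : Fin (2 * l + 1 + 1)))
        (fun t => Lv φ (w t))
      have h3 := Equiv.sum_comp (Equiv.addRight (1 : Fin (2 * l + 1 + 1)))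
        (fun t => Lv φ (w t))
      simp only [Equiv.subRight_apply, Equiv.coe_addRight] at h2 h3
      rw [h2, h3]
      exact CharTwo.add_self_eq_zero _
    · obtain ⟨j, rfl⟩ : ∃ j, i = j + 1 := ⟨i - 1, by omega⟩
      have h1 := hsum j (by omega)
      rw [Finset.sum_congr rfl (fun t _ => hterm j t), Finset.sum_add_distrib, hshift,
        ← Finset.sum_add_distrib] at h1
      rw [← h1]
      have h2 : ∑ t, (Lv φ (w (t - 1)) * Rv φ (w t) ^ (j + 1) +
          Lv φ (w (t + 1)) * Rv φ (w t) ^ (j + 1)) = ∑ t, δ t * Rv φ (w t) ^ (j + 1) := by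
        apply Finset.sum_congr rfl
        intro t _
        show _ = (Lv φ (w (t - 1)) + Lv φ (w (t + 1))) * _
        ring
      rw [h2]
      apply Finset.sum_subset (Finset.subset_univ T)
      intro t _ ht
      rw [hTm] at ht
      have h3 : (w t).isLeft = true := by simpa using ht
      rw [Rv_of_left φ h3]
      simp
  have hδ := vandermonde_finset T (fun t => Rv φ (w t)) δ (by
    intro a ha b hb hab
    exact hw (Rv_inj φ hφ ((hTm a).mp ha) ((hTm b).mp hb) hab)) hzero
  obtain ⟨t, ht⟩ : T.Nonempty := by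
    rw [← Finset.card_pos, hcard]; omega
  have h1 : Lv φ (w (t - 1)) + Lv φ (w (t + 1)) = 0 := hδ t ht
  have h2 : Lv φ (w (t - 1)) = Lv φ (w (t + 1)) := by
    rwa [CharTwo.add_eq_zero] at h1
  have h3 := (hTm t).mp ht
  have h4 : w (t - 1) = w (t + 1) := by
    apply Lv_inj φ hφ _ _ h2
    · rw [hside', h3]; rfl
    · rw [hside, h3]; rfl
  have h5 := hw h4
  have h6 : (1 : Fin (2 * l + 1 + 1)) + 1 = 0 := by
    have : t - 1 + (1 + 1) = t - 1 + 0 := by
      rw [add_zero, ← add_assoc, sub_add_cancel]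
      exact h5.symm
    exact add_left_cancel this
  have h7 := congrArg Fin.val h6
  rw [Fin.val_add] at h7
  simp at h7
  rw [Nat.mod_eq_of_lt (by omega)] at h7
  omega

end lower

section final

/-- the symmetric function used for the colouring -/
def colF {F : Type*} [Field F] {N : ℕ} (φ : Fin N → F) (j : ℕ) (e : Sym2 (Fin N ⊕ Fin N)) : F :=
  Sym2.lift ⟨fun u v => (Lv φ u + Lv φ v) * (Rv φ u + Rv φ v) ^ (j + 1), fun u v => by
    beta_reduce
    rw [add_comm (Lv φ u), add_comm (Rv φ u)]⟩ e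

theorem exists_injective_linear (M : Type*) [AddCommGroup M] [Module (ZMod 2) M]
    [Module.Finite (ZMod 2) M] (d : ℕ) (h : Module.finrank (ZMod 2) M ≤ d) :
    ∃ ψ : M →ₗ[ZMod 2] (Fin d → ZMod 2), Function.Injective ψ := by
  have b := Module.finBasis (ZMod 2) M
  rcases Nat.eq_zero_or_pos (Module.finrank (ZMod 2) M) with h0 | h0
  · refine ⟨0, ?_⟩
    have : Subsingleton M := Module.finrank_zero_iff.mp h0
    exact Function.injective_of_subsingleton _
  · let g : Fin d → Fin (Module.finrank (ZMod 2) M) :=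
      fun i => if hi : (i : ℕ) < Module.finrank (ZMod 2) M then ⟨i, hi⟩ else ⟨0, h0⟩
    have hg : Function.Surjective g := by
      intro j
      refine ⟨⟨j, lt_of_lt_of_le j.isLt h⟩, ?_⟩
      simp [g]
    refine ⟨(LinearMap.funLeft (ZMod 2) (ZMod 2) g).comp b.equivFun.toLinearMap, ?_⟩
    rw [LinearMap.coe_comp]
    exact (LinearMap.funLeft_injective_of_surjective _ _ g hg).comp b.equivFun.injective

theorem exists_coloring (m d N k : ℕ) (hk : (m - 1) * k ≤ d) (hN : N ≤ 2 ^ k) :
    ∃ c : Sym2 (Fin N ⊕ Fin N) → (Fin d → ZMod 2), NoZ m c := by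
  rcases Nat.eq_zero_or_pos k with rfl | hk0
  · refine ⟨fun _ => 0, ?_⟩
    intro l hl1 _
    rintro ⟨w, hw, _⟩
    have := Fintype.card_le_of_injective w hw
    simp at this
    simp at hN
    omega
  · have hfr : Module.finrank (ZMod 2) (Fin (m - 1) → GaloisField 2 k) ≤ d := by
      rw [Module.finrank_pi_fintype]
      simp only [GaloisField.finrank 2 hk0.ne']
      simpa using hk
    obtain ⟨ψ, hψ⟩ := exists_injective_linear (Fin (m - 1) → GaloisField 2 k) d hfr
    have : Fintype (GaloisField 2 k) := Fintype.ofFinite _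
    have hcard : Fintype.card (Fin N) ≤ Fintype.card (GaloisField 2 k) := by
      rw [← Nat.card_eq_fintype_card (α := GaloisField 2 k), GaloisField.card 2 k hk0.ne']
      simpa using hN
    obtain ⟨φ⟩ := Function.Embedding.nonempty_of_card_le hcard
    refine ⟨fun e => ψ (fun j => colF φ j e), ?_⟩
    intro l hl1 hl
    rintro ⟨w, hw, hadj, hsum⟩
    apply no_cycle φ φ.injective m l hl1 hl w hw hadj
    rw [← map_sum] at hsum
    have h0 := hψ (hsum.trans (map_zero ψ).symm)
    intro j hj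
    have h1 := congrFun h0 ⟨j, hj⟩
    rw [Finset.sum_apply] at h1
    exact h1

/-- `G` contains a copy of `H` (a subgraph isomorphic to `H`, not necessarily induced) whose edge
colours under `c` sum to zero. -/
def ZeroSumCopy {V W Γ : Type*} [AddCommMonoid Γ] (G : SimpleGraph V) (H : SimpleGraph W)
    (c : Sym2 V → Γ) : Prop :=
  ∃ H' : G.Subgraph, Nonempty (H'.coe ≃g H) ∧ ∑ᶠ e ∈ H'.edgeSet, c e = 0

/-- The zero-sum bipartite Ramsey number `B(C_m, Z_2^d)` for `C_m = {C_4, C_6, ..., C_{2m}}`: the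
least `N` such that every `Z_2^d`-colouring of the edges of `K_{N,N}` has a zero-sum copy of some
`C_{2k}`, `2 ≤ k ≤ m`. -/
noncomputable def B (m d : ℕ) : ℕ :=
  sInf {N : ℕ | ∀ c : Sym2 (Fin N ⊕ Fin N) → (Fin d → ZMod 2), ∃ k : ℕ, 2 ≤ k ∧ k ≤ m ∧
    ZeroSumCopy (completeBipartiteGraph (Fin N) (Fin N)) (SimpleGraph.cycleGraph (2 * k)) c}

theorem zeroSumCopy_iff {N d : ℕ} (c : Sym2 (Fin N ⊕ Fin N) → (Fin d → ZMod 2)) (l : ℕ) :
    ZeroSumCopy (completeBipartiteGraph (Fin N) (Fin N)) (SimpleGraph.cycleGraph (2 * (l + 2))) c ↔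
      ∃ w : Fin (2 * (l + 1) + 1 + 1) → Fin N ⊕ Fin N, Function.Injective w ∧
      (∀ t, (KNN N).Adj (w t) (w (t + 1))) ∧ ∑ t, c s(w t, w (t + 1)) = 0 := by
  constructor
  · intro h
    exact bridge_mp (n := 2 * l + 1) (KNN N) c h
  · intro h
    exact bridge_mpr (n := 2 * l + 1) (KNN N) c h

theorem noZ_iff {N d : ℕ} (m : ℕ) (c : Sym2 (Fin N ⊕ Fin N) → (Fin d → ZMod 2)) :
    NoZ m c ↔ ¬ ∃ k : ℕ, 2 ≤ k ∧ k ≤ m ∧
    ZeroSumCopy (completeBipartiteGraph (Fin N) (Fin N)) (SimpleGraph.cycleGraph (2 * k)) c := by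
  constructor
  · rintro h ⟨k, hk1, hk2, hk3⟩
    obtain ⟨l, rfl⟩ : ∃ l, k = l + 2 := ⟨k - 2, by omega⟩
    exact h (l + 1) (by omega) (by omega) ((zeroSumCopy_iff c l).mp hk3)
  · intro h k hk1 hk2 hk3
    obtain ⟨l, rfl⟩ : ∃ l, k = l + 1 := ⟨k - 1, by omega⟩
    exact h ⟨l + 2, by omega, by omega, (zeroSumCopy_iff c l).mpr hk3⟩

theorem B_set_mem (m d N : ℕ) (hm : 2 ≤ m) (hN : K (m - 1) * 2 ^ d < N ^ (m - 1)) :
    N ∈ {N : ℕ | ∀ c : Sym2 (Fin N ⊕ Fin N) → (Fin d → ZMod 2), ∃ k : ℕ, 2 ≤ k ∧ k ≤ m ∧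
    ZeroSumCopy (completeBipartiteGraph (Fin N) (Fin N)) (SimpleGraph.cycleGraph (2 * k)) c} := by
  intro c
  by_contra h
  have h1 := (noZ_iff m c).mpr h
  have hN0 : 0 < N := by
    rcases Nat.eq_zero_or_pos N with rfl | h
    · rw [zero_pow (by omega)] at hN; omega
    · exact h
  have := main_upper m hm c hN0 h1
  omega

theorem B_not_mem (m d N : ℕ) (hN : N ≤ 2 ^ (d / (m - 1))) :
    N ∉ {N : ℕ | ∀ c : Sym2 (Fin N ⊕ Fin N) → (Fin d → ZMod 2), ∃ k : ℕ, 2 ≤ k ∧ k ≤ m ∧
    ZeroSumCopy (completeBipartiteGraph (Fin N) (Fin N)) (SimpleGraph.cycleGraph (2 * k)) c} := by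
  intro h
  obtain ⟨c, hc⟩ := exists_coloring m d N (d / (m - 1)) (Nat.mul_div_le _ _) hN
  exact (noZ_iff m c).mp hc (h c)

theorem B_bounds (m d : ℕ) (hm : 2 ≤ m) :
    (1 / 2 : ℝ) * (2 : ℝ) ^ ((d : ℝ) / ((m : ℝ) - 1)) ≤ (B m d : ℝ) ∧
      (B m d : ℝ) ≤ ((K (m - 1) : ℝ) + 1) * (2 : ℝ) ^ ((d : ℝ) / ((m : ℝ) - 1)) := by
  obtain ⟨n, rfl⟩ : ∃ n, m = n + 2 := ⟨m - 2, by omega⟩
  have hm1 : ((n + 2 : ℕ) : ℝ) - 1 = ((n + 1 : ℕ) : ℝ) := by push_cast; ring
  have hpos : (0 : ℝ) < ((n + 1 : ℕ) : ℝ) := by positivity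
  rw [hm1]
  set x : ℝ := (2 : ℝ) ^ ((d : ℝ) / ((n + 1 : ℕ) : ℝ)) with hx
  have hx1 : 1 ≤ x := Real.one_le_rpow (by norm_num) (by positivity)
  have hxpow : x ^ (n + 1) = 2 ^ d := by
    rw [hx, ← Real.rpow_natCast, ← Real.rpow_mul (by norm_num), div_mul_cancel₀ _ hpos.ne',
      Real.rpow_natCast]
  have hK1 : (1 : ℝ) ≤ K (n + 2 - 1) := by exact_mod_cast K_pos (n + 2 - 1)
  -- an element of the set
  have hmem : (⌊(K (n + 2 - 1) : ℝ) * x⌋₊ + 1) ∈ {N : ℕ |
      ∀ c : Sym2 (Fin N ⊕ Fin N) → (Fin d → ZMod 2), ∃ k : ℕ, 2 ≤ k ∧ k ≤ n + 2 ∧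
      ZeroSumCopy (completeBipartiteGraph (Fin N) (Fin N))
        (SimpleGraph.cycleGraph (2 * k)) c} := by
    apply B_set_mem (n + 2) d _ (by omega)
    have h1 : (K (n + 2 - 1) : ℝ) * x < ((⌊(K (n + 2 - 1) : ℝ) * x⌋₊ + 1 : ℕ) : ℝ) := by
      push_cast
      exact Nat.lt_floor_add_one _
    have h2 : ((K (n + 2 - 1) : ℝ) * x) ^ (n + 1) <
        ((⌊(K (n + 2 - 1) : ℝ) * x⌋₊ + 1 : ℕ) : ℝ) ^ (n + 1) :=
      pow_lt_pow_left₀ h1 (by positivity) (by omega)
    have h3 : (K (n + 2 - 1) : ℝ) * 2 ^ d ≤ ((K (n + 2 - 1) : ℝ) * x) ^ (n + 1) := by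
      rw [mul_pow, hxpow]
      gcongr
      exact le_self_pow₀ hK1 (by omega)
    have h4 := lt_of_le_of_lt h3 h2
    exact_mod_cast h4
  constructor
  · have hBmem : B (n + 2) d ∈ {N : ℕ |
      ∀ c : Sym2 (Fin N ⊕ Fin N) → (Fin d → ZMod 2), ∃ k : ℕ, 2 ≤ k ∧ k ≤ n + 2 ∧
      ZeroSumCopy (completeBipartiteGraph (Fin N) (Fin N))
        (SimpleGraph.cycleGraph (2 * k)) c} := Nat.sInf_mem ⟨_, hmem⟩
    have hlt : 2 ^ (d / (n + 1)) < B (n + 2) d := by
      by_contra hle
      exact B_not_mem (n + 2) d (B (n + 2) d) (not_lt.mp hle) hBmem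
    have h1 : x ≤ 2 * 2 ^ (d / (n + 1)) := by
      rw [hx]
      have h2 : (d : ℝ) / ((n + 1 : ℕ) : ℝ) ≤ ((d / (n + 1) + 1 : ℕ) : ℝ) := by
        rw [div_le_iff₀ hpos]
        have h3 : d < (n + 1) * (d / (n + 1) + 1) := by
          have := Nat.lt_mul_div_succ d (show 0 < n + 1 by omega)
          exact this
        have h4 : d ≤ (d / (n + 1) + 1) * (n + 1) := by
          rw [mul_comm]; exact h3.le
        exact_mod_cast h4
      calc (2 : ℝ) ^ ((d : ℝ) / ((n + 1 : ℕ) : ℝ)) ≤ (2 : ℝ) ^ ((d / (n + 1) + 1 : ℕ) : ℝ) :=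
            Real.rpow_le_rpow_of_exponent_le (by norm_num) h2
        _ = 2 * 2 ^ (d / (n + 1)) := by
            rw [Real.rpow_natCast, pow_succ]; ring
    have h2 : ((2 : ℝ) ^ (d / (n + 1))) ≤ B (n + 2) d := by
      exact_mod_cast hlt.le
    linarith
  · have h1 : B (n + 2) d ≤ ⌊(K (n + 2 - 1) : ℝ) * x⌋₊ + 1 := Nat.sInf_le hmem
    have h2 : (B (n + 2) d : ℝ) ≤ ((⌊(K (n + 2 - 1) : ℝ) * x⌋₊ + 1 : ℕ) : ℝ) := by
      exact_mod_cast h1
    have h3 : ((⌊(K (n + 2 - 1) : ℝ) * x⌋₊ + 1 : ℕ) : ℝ) ≤ (K (n + 2 - 1) : ℝ) * x + 1 := by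
      rw [Nat.cast_add, Nat.cast_one]
      have := Nat.floor_le (show 0 ≤ (K (n + 2 - 1) : ℝ) * x by positivity)
      linarith
    nlinarith

/-- For every `m ≥ 4`, `B(C_m, Z_2^d) = Θ(2^{d/(m-1)})` as `d → ∞`. -/
theorem result : ∀ m : ℕ, 4 ≤ m → ∃ (c C : ℝ) (d₀ : ℕ), 0 < c ∧ c ≤ C ∧ ∀ d : ℕ, d₀ ≤ d →
    c * (2 : ℝ) ^ ((d : ℝ) / ((m : ℝ) - 1)) ≤ (B m d : ℝ) ∧
      (B m d : ℝ) ≤ C * (2 : ℝ) ^ ((d : ℝ) / ((m : ℝ) - 1)) := by
  intro m hm
  refine ⟨1 / 2, (K (m - 1) : ℝ) + 1, 0, by norm_num, ?_, ?_⟩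
  · have : (1 : ℝ) ≤ K (m - 1) := by exact_mod_cast K_pos (m - 1)
    linarith
  · intro d _
    exact B_bounds m d (by omega)

end final

end Pool.Agent.Results.MP_4ec1df_co.EvenCycles
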